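import Pool.Agent.Q288.GI.Zeta

/-!
# Linear independence of the zeros of almost all averages of Riemann's function

Let `Ξ(z) = ξ(1/2 + i z)`, so that `Ξ(γ) = 0` for the zeros `1/2 + i γ` of `ζ`.  For `h > 0` and `|u| = 1` put
`Ξ_(h,u)(z) = Ξ(z + i h) + u Ξ(z - i h)`; for `u = 1` and `h → 0` this tends to `2 Ξ(z)`.  The linear independence
conjecture says that the positive ordinates `γ` are linearly independent over `ℚ`.

For `h > 1/2` without any hypothesis, and for every `h > 0` under the Riemann hypothesis: for every `u` all zeros of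
`Ξ_(h,u)` are real and simple, and there are infinitely many of them; for all `u` on the circle outside a countable set
these zeros (all of them, positive and negative), together with `1`, are linearly independent over `ℚ`, and over any
given countable field of real numbers (for instance the real algebraic numbers, or `ℚ(π, e)`).

Proof.  On the line `Re s = 1/2 + h` the function `ξ` has no zeros and `Re ξ'/ξ > 0`, `Re ξ'/ξ → ∞`.  So the quotient
`ξ(1/2 + h + i t) / ξ(1/2 - h + i t) = R₀ e^(i θ(t))` has a real analytic phase `θ` with `θ' > 0`, `θ' → ∞`, and the zeros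
of `Ξ_(h,u)` are the numbers `G(τ + 2 π n)`, `n ∈ ℤ`, where `G` is the inverse of `θ` and `τ` depends on `u`.  If linear
relations exist for uncountably many `u`, then one relation `∑ c_n G(x + 2 π n) = c₀` holds for uncountably many `x`,
hence for all `x`.  Then the gaps `d_m = G(2 π (m + 1)) - G(2 π m)` satisfy a linear recurrence with constant
coefficients; as they tend to `0`, they decay exponentially, which contradicts `∑ d_m = ∞`.
-/

set_option autoImplicit false

namespace Pool.Agent.Results.MP_0ec205_nt.GenericIndependence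

/-- Riemann's `ξ(s) = s (s - 1) π^(-s/2) Γ(s/2) ζ(s) / 2`, written with Mathlib's entire function `Λ₀`, for which
`π^(-s/2) Γ(s/2) ζ(s) = Λ₀(s) - 1/s - 1/(1-s)`. -/
noncomputable def xi (s : ℂ) : ℂ := (1 + s * (s - 1) * completedRiemannZeta₀ s) / 2

/-- `Ξ(z) = ξ(1/2 + i z)`. -/
noncomputable def Xi (z : ℂ) : ℂ := xi (1 / 2 + Complex.I * z)

/-- The average `Ξ_(h,u)(z) = Ξ(z + i h) + u Ξ(z - i h)`. -/
noncomputable def avg (h : ℝ) (u z : ℂ) : ℂ := Xi (z + h * Complex.I) + u * Xi (z - h * Complex.I)

section aux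

open Pool.Agent.H24R2.JP (XX)
open Pool.Agent.Q288.GI (AV)

theorem Xi_eq (z : ℂ) : Xi z = 1 / 8 * XX (Complex.I * z) := by
  unfold Xi xi XX
  have e1 : (1 / 2 + Complex.I * z) * (1 / 2 + Complex.I * z - 1) = (4 * (Complex.I * z) ^ 2 - 1) / 4 := by ring
  rw [e1]
  ring

theorem avg_eq (h : ℝ) (u z : ℂ) : avg h u z = 1 / 8 * AV h u z := by
  unfold avg AV
  rw [Xi_eq, Xi_eq]
  have e1 : Complex.I * (z + h * Complex.I) = Complex.I * z - h := by
    have := Complex.I_mul_I
    linear_combination (h : ℂ) * this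
  have e2 : Complex.I * (z - h * Complex.I) = Complex.I * z + h := by
    have := Complex.I_mul_I
    linear_combination (-(h : ℂ)) * this
  rw [e1, e2]
  ring

theorem avg_zero (h : ℝ) (u z : ℂ) : avg h u z = 0 ↔ AV h u z = 0 := by
  rw [avg_eq]
  simp

end aux

/-- **Zeros of the averages of `Ξ` are linearly independent for all but countably many `u`.**
Let `K` be a countable field of real numbers, and let `h > 1/2`, or `h > 0` and RH.  Then for every `u` with `|u| = 1`
all zeros of `Ξ_(h,u)` are real and simple, and there are infinitely many; and for all `u` with `|u| = 1` outside a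
countable set: if a linear combination of finitely many real zeros of `Ξ_(h,u)` with coefficients `c t` in `K` lies in
`K`, then all the coefficients vanish. -/
theorem result (K : Subfield ℝ) (hK : Countable K) (h : ℝ) (hh : 1 / 2 < h ∨ (RiemannHypothesis ∧ 0 < h)) :
    (∀ u : ℂ, ‖u‖ = 1 → (∀ z : ℂ, avg h u z = 0 → z.im = 0 ∧ deriv (avg h u) z ≠ 0) ∧
      {t : ℝ | avg h u t = 0}.Infinite) ∧
    {u : ℂ | ‖u‖ = 1 ∧ ¬ ∀ (S : Finset ℝ) (c : ℝ → K) (c₀ : K), (∀ t ∈ S, avg h u t = 0) →
      ∑ t ∈ S, (c t : ℝ) * t = c₀ → ∀ t ∈ S, c t = 0}.Countable := by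
  refine ⟨fun u hu => ⟨fun z hz => ?_, ?_⟩, ?_⟩
  · obtain ⟨h1, h2⟩ := Pool.Agent.Q288.GI.AV_simple hh hu ((avg_zero h u z).1 hz)
    refine ⟨h1, ?_⟩
    have e : avg h u = fun z => 1 / 8 * Pool.Agent.Q288.GI.AV h u z := funext (avg_eq h u)
    rw [e, deriv_const_mul_field]
    exact mul_ne_zero (by norm_num) h2
  · simp only [avg_zero]
    exact Pool.Agent.Q288.GI.AV_inf hh hu
  · simp only [avg_zero]
    exact Pool.Agent.Q288.GI.AV_indep K hh

end Pool.Agent.Results.MP_0ec205_nt.GenericIndependence
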