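import Pool.Agent.Q172.LI.D

/-!
# Neighbouring ordinates of the zeta zeros satisfy no linear relation of infinite length

Let `0 < γ_1 ≤ γ_2 ≤ …` be the ordinates of the nontrivial zeros of `ζ` with positive imaginary
part, with multiplicity; the Riemann hypothesis is NOT assumed.  For all `K` and `0 < r < 1` there
is `ε > 0` such that for all large `N`, all real sequences `(c j)`, `j` an integer, with
`|c j| ≤ K r^|j|` for all `j` and `|c j| ≥ 1` for some `j`, and all real `b`, at least `ε N` of the
indices `n ≤ N` satisfy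

  `|∑_{j > -n} c j γ_{n+j} - b| ≥ ε / log γ_n`.

Idea of the proof.  Otherwise, by compactness, there are such a sequence `c` and a limit process
`(q_k)`, `k` an integer, of the gaps between consecutive ordinates, divided by the mean gap, with
`∑ c j q_j = 0` almost surely.  The variance of `∑ c j q_j` is the integral of `|C(x)|²`, with
`C(x) = ∑ c j exp(i j x)`, against the power spectrum of the process.  The function `C` is analytic
and does not vanish identically, so it has no zeros in some interval `(0, x_1]`; but the spectral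
mass of `[0, x]` is asymptotic to `x² / 4π²` as `x → 0`, for every limit process.
-/

set_option autoImplicit false

open Filter

namespace Pool.Agent.Results.MP_0ec205_nt.InfiniteRelations

/-- multiplicity of `s` as a zero of the Riemann zeta function (order of vanishing at `s`) -/
noncomputable def zmult (s : ℂ) : ℕ := analyticOrderNatAt riemannZeta s

/-- the number of nontrivial zeros of `ζ` with ordinate in `(0, t]`, with multiplicity -/
noncomputable def NZ (t : ℝ) : ℕ :=
  ∑ᶠ s ∈ {s : ℂ | riemannZeta s = 0 ∧ 0 < s.re ∧ s.re < 1 ∧ 0 < s.im ∧ s.im ≤ t}, zmult s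

/-- for `n ≥ 1`: the `n`-th positive ordinate `γ n` of a nontrivial zero of `ζ`, the ordinates being
listed in nondecreasing order and repeated according to multiplicity -/
noncomputable def γ (n : ℕ) : ℝ := sInf {t : ℝ | n ≤ NZ t}

/-- the linear form `∑ c j γ_{n+j}`, the sum being over the integers `j` with `n + j ≥ 1` -/
noncomputable def form (c : ℤ → ℝ) (n : ℕ) : ℝ :=
  ∑' j : ℤ, c j * (if 1 ≤ (n : ℤ) + j then γ ((n : ℤ) + j).toNat else 0)

/-- **Theorem** (no hypothesis).  For all `K` and `0 < r < 1`: if `|c j| ≤ K r^|j|` for all integers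
`j`, the series `form c n` converges absolutely; and there is `ε > 0` such that for all large `N`,
for every such sequence with `|c j| ≥ 1` for some `j` and for every real `b`, the form differs from
`b` by at least `ε / log γ_n` for at least `ε N` indices `n ≤ N`. -/
theorem result (K r : ℝ) (hr : 0 < r) (hr1 : r < 1) :
    (∀ c : ℤ → ℝ, (∀ j, |c j| ≤ K * r ^ j.natAbs) → ∀ n : ℕ,
      Summable fun j : ℤ => c j * (if 1 ≤ (n : ℤ) + j then γ ((n : ℤ) + j).toNat else 0)) ∧
    ∃ ε : ℝ, 0 < ε ∧ ∀ᶠ N : ℕ in atTop, ∀ c : ℤ → ℝ, (∀ j, |c j| ≤ K * r ^ j.natAbs) →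
      (∃ j, 1 ≤ |c j|) → ∀ b : ℝ,
        ε * N ≤ ({n : ℕ | 1 ≤ n ∧ n ≤ N ∧ ε / Real.log (γ n) ≤ |form c n - b|}.ncard : ℝ) := by
  refine ⟨fun c hc n => Pool.Agent.Q172.LI.oz_summable hr hr1 hc n, ?_⟩
  obtain ⟨ε, hε, h⟩ := Pool.Agent.Q172.LI.main_D K r hr hr1
  refine ⟨ε, hε, h.mono fun N hN c hc hc1 b => (hN c hc hc1 b).trans (le_of_eq ?_)⟩
  have e : {n : ℕ | 1 ≤ n ∧ n ≤ N ∧ ε / Real.log (γ n) ≤ |form c n - b|} =
      (((Finset.Icc 1 N).filter fun n =>
        ε / Real.log (SG.ord n) ≤ |Pool.Agent.Q172.LI.LF c n - b|) : Finset ℕ) := by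
    ext n
    rw [Finset.coe_filter, Set.mem_ofPred_eq, Set.mem_ofPred_eq, Finset.mem_Icc, and_assoc]
    rfl
  rw [e, Set.ncard_coe_finset]

end Pool.Agent.Results.MP_0ec205_nt.InfiniteRelations
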