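import Pool.Agent.Q253.LM.F2
import Pool.Agent.Q38.LM.MN
import Pool.Agent.Q68.LM.TR
import Pool.Agent.Q68.LM.GF
import Pool.Agent.Q68.LM.TT
import Pool.Agent.Q68.LM.RL
import Pool.Agent.Q68.LM.LI
import Pool.Agent.Q223.LM.TC

set_option autoImplicit false

/-!
# The moments of a sum over primes decide the relations between the ordinates of a given length

No hypothesis is assumed.  For `x = e^u` put `E(u) = ∑ Λ(n) n^(-1/2) min(n/x, x/n) - (8/3) √x`, and let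
`M_k(U) = (1/U) ∫_0^U (-E(u))^k du`.

A relation of length `ℓ` between the ordinates is `∑ n_γ γ = 0` with integers `n_γ`, `∑ |n_γ| = ℓ` (for example
`γ₁ + γ₂ = γ₃` has length `3`).  Under the Riemann hypothesis `M_k(U)` tends to the weighted number `T_k` of all the
`k`-tuples of zeros with sum `0`; this is at least an explicit number `R_k`, which depends only on the logarithmic
derivative of `ζ` in the region of absolute convergence, and it is equal to it if and only if there is no relation of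
length `≤ k` and of the parity of `k` (and, for even `k ≥ 2`, all zeros are simple).
-/

open Filter Topology Set Complex

namespace Pool.Agent.Results.MP_0ec205_nt.MomentsDecideRelations

/-- the Riemann hypothesis -/
def RH : Prop := ∀ s : ℂ, 1 / 2 < s.re → s.re < 1 → riemannZeta s ≠ 0

/-- the set `Γ⁺` of the problem -/
abbrev Ordinate : Type := {γ : ℝ // 0 < γ ∧ riemannZeta (1 / 2 + (γ : ℂ) * I) = 0}

/-- no nontrivial relation between elements of `Γ⁺` of length at most `k` and of the parity of `k` -/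
def NoRelation (k : ℕ) : Prop :=
  ∀ n : Ordinate →₀ ℤ, ∑ γ ∈ n.support, (n γ : ℝ) * (γ : ℝ) = 0 → ∑ γ ∈ n.support, |n γ| ≤ (k : ℤ) →
    Even ((k : ℤ) - ∑ γ ∈ n.support, |n γ|) → n = 0

/-- the zeros `1/2 + iγ`, `γ > 0`, are simple -/
def Simple : Prop := ∀ γ : ℝ, 0 < γ → riemannZeta (1 / 2 + (γ : ℂ) * I) = 0 →
  deriv riemannZeta (1 / 2 + (γ : ℂ) * I) ≠ 0

/-- `∑ Λ(n) n^(-1/2) min(n/x, x/n) - (8/3) √x` for `x = e^u` -/
noncomputable def E (u : ℝ) : ℝ :=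
  (∑' n : ℕ, ArithmeticFunction.vonMangoldt n *
    (Real.exp (-(Real.log n / 2)) * Real.exp (-|u - Real.log n|))) - 8 / 3 * Real.exp (u / 2)

/-- the `k`-th moment of `-E` -/
noncomputable def M (k : ℕ) (U : ℝ) : ℝ := (1 / U) * ∫ u in (0 : ℝ)..U, (-E u) ^ k

open Classical in
/-- the weighted number of `k`-tuples of zeros with sum `0`: the sum over `γ₁ + ... + γ_k = 0` of the product of the
`m(γ_j) 2/(1+γ_j²)`, where `m(γ)` is the multiplicity of the zero `1/2 + iγ` (it is `0` if this is no zero) -/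
noncomputable def T (k : ℕ) : ℝ := ∑' s : Fin k → ℝ,
  if ∑ l, s l = 0 then ∏ l, (analyticOrderNatAt riemannZeta (1 / 2 + (s l : ℂ) * I) : ℝ) * (2 / (1 + s l ^ 2)) else 0

/-- the Bessel function `I₀` -/
noncomputable def I0 (w : ℂ) : ℂ := ∑' k : ℕ, (w / 2) ^ (2 * k) / ((Nat.factorial k : ℂ) ^ 2)

/-- Riemann's function -/
noncomputable def xi (s : ℂ) : ℂ := (1 + s * (s - 1) * completedRiemannZeta₀ s) / 2

/-- `H(t) = (1-t)^(-1/2) ξ'/ξ (1/2 + (1-t)^(1/2))`; for `|t| = 1/2` the argument has real part greater than `1` -/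
noncomputable def H (t : ℂ) : ℂ := (1 - t) ^ (-(1 / 2) : ℂ) * logDeriv xi (1 / 2 + (1 - t) ^ (1 / 2 : ℂ))

/-- `R(λ) = exp ((1/4πi) ∮_{|t| = 1/2} H(t) log I₀(4λ/t) dt)` -/
noncomputable def R (lam : ℝ) : ℝ :=
  Real.exp (1 / (4 * Real.pi * I) * ∮ t in C(0, 1 / 2), H t * Complex.log (I0 (4 * lam / t))).re

open Pool.Agent.Q253.LM in
lemma E_eq : E = Pool.Agent.Q253.LQ.EE 1 := by
  funext u
  unfold E Pool.Agent.Q253.LQ.EE
  rw [Nat.totient_one, Nat.cast_one, one_mul]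
  congr 1
  refine tsum_congr fun n => ?_
  rw [if_pos (by rw [Nat.mod_one, Nat.mod_one])]

lemma XL_eq (χ : DirichletCharacter ℂ 1) : Pool.Agent.Q253.LQ.XL χ = xi := by
  funext s
  unfold Pool.Agent.Q253.LQ.XL
  rw [if_pos (Subsingleton.elim χ 1)]
  rfl

lemma R_eq : R = Pool.Agent.Q253.LQ.Rq 1 := by
  funext lam
  unfold R Pool.Agent.Q253.LQ.Rq
  have e : ∀ t, Pool.Agent.Q253.LQ.Hq 1 t = H t := by
    intro t
    unfold Pool.Agent.Q253.LQ.Hq H
    congr 1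
    simp_rw [XL_eq]
    rw [Finset.sum_const]
    have : (Finset.univ : Finset (DirichletCharacter ℂ 1)).card = 1 := by
      rw [Finset.card_univ, Fintype.card_eq_one_iff]
      exact ⟨1, fun χ => Subsingleton.elim _ _⟩
    rw [this, one_smul]
  simp_rw [e]
  rfl

lemma RH_iff : Pool.Agent.Q253.LQ.GRHq 1 ↔ RH := Pool.Agent.Q253.LM.grh_one

lemma T_eq (hG : RH) (k : ℕ) :
    Pool.Agent.Q253.LM.T (Pool.Agent.Q253.LQ.gi : Pool.Agent.Q253.LQ.Idx 1 → ℝ) Pool.Agent.Q253.LQ.ci k = T k := by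
  have hG' := RH_iff.2 hG
  have h := Pool.Agent.Q68.LM.t_TT (Pool.Agent.Q253.LQ.mt 1) (fun x => 2 / (1 + x ^ 2)) k
    (fun x => Pool.Agent.Q253.LQ.mt_neg x) Pool.Agent.Q253.LM.mt_one_zero (fun x => by rw [neg_sq])
    (fun x => by positivity) (by
      refine ((Pool.Agent.Q253.LQ.mt_sm hG').mul_left 2).congr fun x => ?_
      ring)
  unfold T
  simp_rw [← Pool.Agent.Q253.LM.mt_one]
  exact h

lemma NoRel_iff (k : ℕ) : Pool.Agent.Q253.LM.NoRel (Pool.Agent.Q253.LQ.gi : Pool.Agent.Q253.LQ.Idx 1 → ℝ) k ↔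
    (NoRelation k ∧ (Even k → 2 ≤ k → Simple)) := by
  have h := Pool.Agent.Q68.LM.t_RL (Pool.Agent.Q253.LQ.mt 1) k
  have e1 : (fun γ : ℝ => 0 < γ ∧ Pool.Agent.Q253.LQ.mt 1 γ ≠ 0) =
      (fun γ : ℝ => 0 < γ ∧ riemannZeta (1 / 2 + (γ : ℂ) * I) = 0) := by
    funext γ
    rw [Pool.Agent.Q253.LM.mt_one_ne]
  have e2 := congrArg (fun P : ℝ → Prop => Pool.Agent.Q253.LM.NoRel (fun γ : {γ : ℝ // P γ} => (γ : ℝ)) k) e1
  have e3 : Pool.Agent.Q253.LM.NoRel (fun γ : {γ : ℝ // 0 < γ ∧ Pool.Agent.Q253.LQ.mt 1 γ ≠ 0} => (γ : ℝ)) k ↔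
      NoRelation k := by
    rw [show Pool.Agent.Q253.LM.NoRel (fun γ : {γ : ℝ // 0 < γ ∧ Pool.Agent.Q253.LQ.mt 1 γ ≠ 0} => (γ : ℝ)) k =
      Pool.Agent.Q253.LM.NoRel (fun γ : {γ : ℝ // 0 < γ ∧ riemannZeta (1 / 2 + (γ : ℂ) * I) = 0} => (γ : ℝ)) k from e2]
    rfl
  have e4 : (∀ γ : ℝ, 0 < γ → Pool.Agent.Q253.LQ.mt 1 γ ≤ 1) ↔ Simple := by
    unfold Simple
    constructor
    · intro h γ hγ hz
      exact (Pool.Agent.Q253.LM.mt_one_le γ hz).1 (h γ hγ)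
    · intro h γ hγ
      by_cases hz : riemannZeta (1 / 2 + (γ : ℂ) * I) = 0
      · exact (Pool.Agent.Q253.LM.mt_one_le γ hz).2 (h γ hγ hz)
      · have : Pool.Agent.Q253.LQ.mt 1 γ = 0 := by
          by_contra h2
          exact hz ((Pool.Agent.Q253.LM.mt_one_ne γ).1 h2)
        omega
  rw [show Pool.Agent.Q253.LM.NoRel (Pool.Agent.Q253.LQ.gi : Pool.Agent.Q253.LQ.Idx 1 → ℝ) k ↔ _ from h, e3, e4]

lemma LI_iff : LinearIndependent ℚ (fun γ : Ordinate => (γ : ℝ)) ↔ ∀ k, NoRelation k :=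
  Pool.Agent.Q68.LM.t_LI Ordinate (fun γ => (γ : ℝ))

lemma M_eq (k : ℕ) : M k = Pool.Agent.Q253.LM.MK 1 k := by
  funext U
  unfold M Pool.Agent.Q253.LM.MK
  rw [E_eq]

lemma R_odd {k : ℕ} (hk : Odd k) : iteratedDeriv k R 0 = 0 := by
  have h1 : (fun x : ℝ => R (-x)) = R := by
    funext x
    rw [R_eq]
    exact Pool.Agent.Q253.LM.Rq_neg x
  have h2 := iteratedDeriv_comp_neg k R (0 : ℝ)
  rw [h1, neg_zero, hk.neg_one_pow, neg_one_smul] at h2
  linarith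

/-- No hypothesis is assumed.  (1) For every even `k ≥ 2` the Riemann hypothesis is the boundedness of the `k`-th moment.
(2) Under the Riemann hypothesis, for every `k`, the `k`-th moment tends to `T k ≥ R^(k)(0)`, and the following are
equivalent: `T k = R^(k)(0)`; the upper limit of the moment is at most `R^(k)(0)`; there is no relation of length `≤ k`
and of the parity of `k`, and if `k ≥ 2` is even all zeros are simple; for odd `k` the number `R^(k)(0)` is `0`.  (3) For even `k ≥ 2` the one inequality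
`limsup M_k ≤ R^(k)(0)` is equivalent to the Riemann hypothesis, the simplicity of the zeros and the absence of relations
of even length `≤ k`.  (4) The Riemann hypothesis, the simplicity of the zeros and the linear independence conjecture
together are equivalent to these inequalities for all `k`. -/
theorem result :
    (∀ k : ℕ, Even k → k ≠ 0 → (RH ↔ ∃ C : ℝ, ∀ᶠ U : ℝ in atTop, M k U ≤ C)) ∧
    (RH → ∀ k : ℕ, Tendsto (M k) atTop (𝓝 (T k)) ∧ iteratedDeriv k R 0 ≤ T k ∧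
      (T k = iteratedDeriv k R 0 ↔ NoRelation k ∧ (Even k → 2 ≤ k → Simple)) ∧
      ((∀ ε : ℝ, 0 < ε → ∀ᶠ U : ℝ in atTop, M k U ≤ iteratedDeriv k R 0 + ε) ↔
        NoRelation k ∧ (Even k → 2 ≤ k → Simple))) ∧
    (∀ k : ℕ, Odd k → iteratedDeriv k R 0 = 0) ∧
    (∀ k : ℕ, Even k → k ≠ 0 → ((RH ∧ Simple ∧ NoRelation k) ↔
      ∀ ε : ℝ, 0 < ε → ∀ᶠ U : ℝ in atTop, M k U ≤ iteratedDeriv k R 0 + ε)) ∧
    ((RH ∧ Simple ∧ LinearIndependent ℚ (fun γ : Ordinate => (γ : ℝ))) ↔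
      ∀ k : ℕ, ∀ ε : ℝ, 0 < ε → ∀ᶠ U : ℝ in atTop, M k U ≤ iteratedDeriv k R 0 + ε) := by
  have h0 := Pool.Agent.Q253.LM.mt_one_zero
  have hMN := Pool.Agent.Q38.LM.t_MN
  have hTR := Pool.Agent.Q68.LM.t_TR
  have hGF := Pool.Agent.Q68.LM.t_GF hMN hTR
  have hTC := Pool.Agent.Q223.LM.t_TC
  have r1 : ∀ k : ℕ, Even k → k ≠ 0 → (RH ↔ ∃ C : ℝ, ∀ᶠ U : ℝ in atTop, M k U ≤ C) := by
    intro k hk hk0
    rw [← RH_iff, M_eq]
    exact Pool.Agent.Q253.LM.grh_iff_k hMN h0 hk hk0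
  have r2 : RH → ∀ k : ℕ, Tendsto (M k) atTop (𝓝 (T k)) ∧ iteratedDeriv k R 0 ≤ T k ∧
      (T k = iteratedDeriv k R 0 ↔ NoRelation k ∧ (Even k → 2 ≤ k → Simple)) ∧
      ((∀ ε : ℝ, 0 < ε → ∀ᶠ U : ℝ in atTop, M k U ≤ iteratedDeriv k R 0 + ε) ↔
        NoRelation k ∧ (Even k → 2 ≤ k → Simple)) := by
    intro hG k
    have hG' := RH_iff.2 hG
    obtain ⟨a, b, c⟩ := Pool.Agent.Q253.LM.level hMN hTR hGF hTC hG' h0 k
    have l := Pool.Agent.Q253.LM.lim hMN hG' h0 k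
    rw [T_eq hG] at a b l
    rw [NoRel_iff] at b c
    rw [M_eq, R_eq]
    exact ⟨l, a, b, c⟩
  have r3 : ∀ k : ℕ, Even k → k ≠ 0 → ((RH ∧ Simple ∧ NoRelation k) ↔
      ∀ ε : ℝ, 0 < ε → ∀ᶠ U : ℝ in atTop, M k U ≤ iteratedDeriv k R 0 + ε) := by
    intro k hk hk0
    have hk2 : 2 ≤ k := by
      obtain ⟨j, hj⟩ := hk
      omega
    constructor
    · rintro ⟨hG, hS, hN⟩
      exact (r2 hG k).2.2.2.2 ⟨hN, fun _ _ => hS⟩
    · intro h
      have hG : RH := (r1 k hk hk0).2 ⟨_, h 1 one_pos⟩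
      obtain ⟨a, b⟩ := (r2 hG k).2.2.2.1 h
      exact ⟨hG, b hk hk2, a⟩
  refine ⟨r1, r2, fun k hk => R_odd hk, r3, ?_⟩
  constructor
  · rintro ⟨hG, hS, hL⟩ k
    exact (r2 hG k).2.2.2.2 ⟨LI_iff.1 hL k, fun _ _ => hS⟩
  · intro h
    obtain ⟨hG, hS, -⟩ := (r3 2 even_two two_ne_zero).2 (h 2)
    exact ⟨hG, hS, LI_iff.2 fun k => ((r2 hG k).2.2.2.1 (h k)).1⟩

end Pool.Agent.Results.MP_0ec205_nt.MomentsDecideRelations
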