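import Pool.Agent.Q97.UM.Rz2

set_option autoImplicit false

/-!
# MP_0ec205_nt: bounds for `M(x)` force many relations between the ordinates at a bounded height

A relation up to `T` is an equation `∑ c_γ γ = 0` between the ordinates `0 < γ < T` of the nontrivial zeros with integers `|c_γ| ≤ 2`, not all zero, at
most one of them `± 2`. Let `s = ± 1`, `0 ≤ θ < 1` and suppose only that for all large `x` some `y` with `|y - x| ≤ x^θ` has `s M(y) ≤ K √y`
(in particular if `s M(x) ≤ K √x` for all large `x`). Then RH holds, all zeros are simple, and for EVERY `T > 0` the sum of `(1 - γ/T) / |ρ ζ'(ρ)|` over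
the ordinates `γ < T` which occur (with a nonzero coefficient) in no relation up to `T` is at most `K`. On the other hand the sum of `1 / |ρ ζ'(ρ)|`
over all `γ < T` is at least `c (log T)^(5/4)`; so for `T ≥ exp(C K^(4/5))` most of this sum comes from ordinates which occur in relations up to `T`.
-/

namespace Pool.Agent.Results.MP_0ec205_nt.RelationsFromBounds

open Filter Topology Complex

noncomputable section

/-- the summatory function of the Moebius function -/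
def M (x : ℝ) : ℝ := ∑ n ∈ Finset.Icc 1 ⌊x⌋₊, ((ArithmeticFunction.moebius n : ℤ) : ℝ)

/-- the summatory function of the Liouville function -/
def L (x : ℝ) : ℝ := ∑ n ∈ Finset.Icc 1 ⌊x⌋₊, ((ArithmeticFunction.liouville n : ℤ) : ℝ)

/-- the nontrivial zeros of the Riemann zeta function -/
def Zer : Set ℂ := {ρ : ℂ | riemannZeta ρ = 0 ∧ 0 < ρ.re ∧ ρ.re < 1}

/-- for all large `x` some `y` in `[x - x^θ, x + x^θ]` has `s A(y) ≤ K √y` -/
def Below (θ s : ℝ) (A : ℝ → ℝ) (K : ℝ) : Prop := ∃ x₀ : ℝ, ∀ x : ℝ, x₀ ≤ x → ∃ y : ℝ, |y - x| ≤ x ^ θ ∧ s * A y ≤ K * y ^ (1 / 2 : ℝ)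

/-- the ordinates in `(0, T)` -/
def ords (T : ℝ) : Set ℝ := {γ : ℝ | 0 < γ ∧ γ < T ∧ ∃ ρ ∈ Zer, ρ.im = γ}

/-- the ordinates in `(0, T)` which occur with a nonzero coefficient in a relation up to `T` -/
def related (T : ℝ) : Set ℝ := {γ : ℝ | γ ∈ ords T ∧ ∃ c : ℝ → ℤ, (∀ x ∈ ords T, |c x| ≤ 2) ∧
  (∀ x ∈ ords T, ∀ y ∈ ords T, |c x| = 2 → |c y| = 2 → x = y) ∧ ∑ᶠ x ∈ ords T, (c x : ℝ) * x = 0 ∧ c γ ≠ 0}

/-- the other ordinates in `(0, T)` -/
def free (T : ℝ) : Set ℝ := ords T \ related T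

open Pool.Agent.Q97.UM.Rz (GT mem_GT wq free_le sum_low)

lemma ords_eq (T : ℝ) : ords T = ((GT T : Finset ℝ) : Set ℝ) := by
  ext γ
  rw [Finset.mem_coe, mem_GT]
  rfl

lemma ords_finite (T : ℝ) : (ords T).Finite := by
  rw [ords_eq]
  exact Finset.finite_toSet _

/-- the ordinates without relation, as a finite set -/
def FT (T : ℝ) : Finset ℝ := by
  classical
  exact (GT T).filter (fun γ => γ ∈ free T)

/-- the ordinates with a relation, as a finite set -/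
def RT (T : ℝ) : Finset ℝ := by
  classical
  exact (GT T).filter (fun γ => γ ∉ free T)

lemma free_eq (T : ℝ) : free T = ((FT T : Finset ℝ) : Set ℝ) := by
  classical
  ext γ
  unfold FT
  rw [Finset.mem_coe, Finset.mem_filter]
  constructor
  · intro h
    refine ⟨?_, h⟩
    have := h.1
    rw [ords_eq] at this
    exact this
  · exact fun h => h.2

lemma related_eq (T : ℝ) : related T = ((RT T : Finset ℝ) : Set ℝ) := by
  classical
  ext γ
  unfold RT
  rw [Finset.mem_coe, Finset.mem_filter]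
  constructor
  · intro h
    have h1 := h.1
    rw [ords_eq] at h1
    exact ⟨h1, fun h2 => h2.2 h⟩
  · rintro ⟨h1, h2⟩
    by_contra h3
    apply h2
    refine ⟨?_, h3⟩
    rw [ords_eq]
    exact h1

lemma no_rel (T : ℝ) : ¬ Pool.Agent.Q97.UM.Rz.Rel (GT T) (FT T) := by
  classical
  rintro ⟨c, h1, h2, h3, x, hx, h4⟩
  unfold FT at hx
  rw [Finset.mem_filter] at hx
  apply hx.2.2
  refine ⟨hx.2.1, c, ?_, ?_, ?_, h4⟩
  · intro y hy
    rw [ords_eq] at hy
    exact h1 y hy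
  · intro y hy z hz
    rw [ords_eq] at hy hz
    exact h2 y hy z hz
  · rw [ords_eq, finsum_mem_coe_finset]
    exact h3

lemma FT_sub (T : ℝ) : FT T ⊆ GT T := by
  classical
  unfold FT
  exact Finset.filter_subset _ _

/-- the conclusion for one summatory function -/
lemma general {f : ℕ → ℝ} {Q : ℂ → ℂ} (q : Q241SPL.QD f Q) {β : ℂ}
    (hβ : Tendsto (fun σ : ℝ => ((σ - 1 / 2 : ℝ) : ℂ) * Q σ) (𝓝[>] (1 / 2)) (𝓝 β))
    (hQ : ∀ s, Q ((starRingEnd ℂ) s) = (starRingEnd ℂ) (Q s)) {θ : ℝ} (hθ : θ < 1) {s K : ℝ} {A : ℝ → ℝ}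
    (hA : ∀ y, s * A y = Q241SPL.S f y) (h : Below θ s A K) :
    (∀ ρ ∈ Zer, ρ.re = 1 / 2 ∧ deriv riemannZeta ρ ≠ 0) ∧ 0 ≤ K - (2 * β / riemannZeta (1 / 2)).re ∧
    ∀ T : ℝ, 0 < T → ∑ γ ∈ FT T, (1 - γ / T) * ‖wq Q (1 / 2 + γ * I)‖ ≤ K - (2 * β / riemannZeta (1 / 2)).re := by
  have hP : Q241SPL.Meets θ {y : ℝ | s * A y ≤ K * y ^ (1 / 2 : ℝ)} := by
    obtain ⟨x₀, h⟩ := h
    refine ⟨x₀, fun x hx => ?_⟩
    obtain ⟨y, h1, h2⟩ := h x hx
    exact ⟨y, h2, h1⟩
  obtain ⟨h1, h2, h3⟩ := q.final hβ hθ hP (D := K) (by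
    refine ⟨0, fun y hy _ => ?_⟩
    have h4 : s * A y ≤ K * y ^ (1 / 2 : ℝ) := hy
    rw [← hA]
    exact h4)
  obtain ⟨ρ₀, hρ₀, -⟩ := Q241SPL.exists_right one_pos
  have h0 : 0 ≤ K - (2 * β / riemannZeta (1 / 2)).re := by
    have := h2 ρ₀ hρ₀
    have h5 := norm_nonneg (Q ρ₀ / (ρ₀ * deriv riemannZeta ρ₀))
    linarith
  refine ⟨h1, h0, fun T hT => ?_⟩
  exact free_le hQ (fun ρ hρ => (h1 ρ hρ).1) hT h0 (fun v => by
    have := h3 T hT v
    linarith) (FT T) (FT_sub T) (no_rel T)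

lemma general_M {θ : ℝ} (hθ : θ < 1) {s K : ℝ} (hs : s = 1 ∨ s = -1) (h : Below θ s M K) :
    (∀ ρ ∈ Zer, ρ.re = 1 / 2 ∧ deriv riemannZeta ρ ≠ 0) ∧ 0 ≤ K ∧
    ∀ T : ℝ, 0 < T → ∑ γ ∈ FT T, (1 - γ / T) / ‖(1 / 2 + γ * I) * deriv riemannZeta (1 / 2 + γ * I)‖ ≤ K := by
  rcases hs with rfl | rfl
  · obtain ⟨h1, h0, h2⟩ := general Q241SPL.qd_mu Q241SPL.beta_mu (fun s => (map_one _).symm) hθ (fun y => one_mul _) h
    simp only [mul_zero, zero_div, Complex.zero_re, sub_zero] at h0 h2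
    refine ⟨h1, h0, fun T hT => (le_of_eq ?_).trans (h2 T hT)⟩
    refine Finset.sum_congr rfl fun γ _ => ?_
    unfold wq
    rw [norm_div, norm_one, mul_one_div]
  · obtain ⟨h1, h0, h2⟩ := general Q241SPL.qd_mu.neg (β := 0) (by
      have := Q241SPL.beta_mu.neg
      rw [neg_zero] at this
      refine this.congr fun σ => by ring) (fun s => by rw [map_neg, map_one]) hθ (fun y => by rw [neg_one_mul, Q241SPL.S_neg]; rfl) h
    simp only [mul_zero, zero_div, Complex.zero_re, sub_zero] at h0 h2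
    refine ⟨h1, h0, fun T hT => (le_of_eq ?_).trans (h2 T hT)⟩
    refine Finset.sum_congr rfl fun γ _ => ?_
    unfold wq
    rw [norm_div, norm_neg, norm_one, mul_one_div]

lemma general_L {θ : ℝ} (hθ : θ < 1) {s K : ℝ} (hs : s = 1 ∨ s = -1) (h : Below θ s L K) :
    (∀ ρ ∈ Zer, ρ.re = 1 / 2 ∧ deriv riemannZeta ρ ≠ 0) ∧
    ∀ T : ℝ, 0 < T → ∑ γ ∈ FT T, (1 - γ / T) * ‖riemannZeta (1 + 2 * γ * I) / ((1 / 2 + γ * I) * deriv riemannZeta (1 / 2 + γ * I))‖ ≤
      K - s * (1 / riemannZeta (1 / 2)).re := by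
  have hconj : ∀ s : ℂ, riemannZeta (2 * (starRingEnd ℂ) s) = (starRingEnd ℂ) (riemannZeta (2 * s)) := by
    intro s
    rw [← riemannZeta_conj, map_mul]
    congr 2
    exact (Complex.conj_ofReal 2).symm
  have e2 : ∀ γ : ℝ, (2 * (1 / 2 + γ * I) : ℂ) = 1 + 2 * γ * I := fun γ => by ring
  rcases hs with rfl | rfl
  · obtain ⟨h1, -, h2⟩ := general Q241SPL.qd_lam Q241SPL.beta_lam hconj hθ (fun y => one_mul _) h
    have e : (2 * (1 / 2) / riemannZeta (1 / 2) : ℂ) = 1 / riemannZeta (1 / 2) := by norm_num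
    rw [e] at h2
    refine ⟨h1, fun T hT => ?_⟩
    rw [one_mul]
    refine (le_of_eq ?_).trans (h2 T hT)
    refine Finset.sum_congr rfl fun γ _ => ?_
    unfold wq
    beta_reduce
    rw [e2]
  · obtain ⟨h1, -, h2⟩ := general Q241SPL.qd_lam.neg (β := -(1 / 2)) (by
      have := Q241SPL.beta_lam.neg
      refine this.congr fun σ => by ring) (fun s => by rw [hconj, map_neg]) hθ (fun y => by rw [neg_one_mul, Q241SPL.S_neg]; rfl) h
    have e : (2 * -(1 / 2) / riemannZeta (1 / 2) : ℂ) = -(1 / riemannZeta (1 / 2)) := by ring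
    rw [e, Complex.neg_re] at h2
    refine ⟨h1, fun T hT => ?_⟩
    rw [neg_one_mul]
    refine (le_of_eq ?_).trans (h2 T hT)
    refine Finset.sum_congr rfl fun γ _ => ?_
    unfold wq
    beta_reduce
    rw [e2, neg_div, norm_neg]

/-- **Theorem.** One-sided bounds for `M` (and for `L`), even at sparse points, force relations between the ordinates. -/
theorem result :
    (∀ T : ℝ, (ords T).Finite) ∧
    -- the ordinates in no relation
    (∀ θ s K : ℝ, θ < 1 → (s = 1 ∨ s = -1) → Below θ s M K →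
      (∀ ρ ∈ Zer, ρ.re = 1 / 2 ∧ deriv riemannZeta ρ ≠ 0) ∧
      ∀ T : ℝ, 0 < T → ∑ᶠ γ ∈ free T, (1 - γ / T) / ‖(1 / 2 + γ * I) * deriv riemannZeta (1 / 2 + γ * I)‖ ≤ K) ∧
    (∀ θ s K : ℝ, θ < 1 → (s = 1 ∨ s = -1) → Below θ s L K →
      (∀ ρ ∈ Zer, ρ.re = 1 / 2 ∧ deriv riemannZeta ρ ≠ 0) ∧
      ∀ T : ℝ, 0 < T →
        ∑ᶠ γ ∈ free T, (1 - γ / T) * ‖riemannZeta (1 + 2 * γ * I) / ((1 / 2 + γ * I) * deriv riemannZeta (1 / 2 + γ * I))‖ ≤
          K - s * (1 / riemannZeta (1 / 2)).re) ∧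
    -- the ordinates in relations
    ∃ c C : ℝ, 0 < c ∧ 0 < C ∧ ∀ θ s K : ℝ, θ < 1 → (s = 1 ∨ s = -1) → 1 ≤ K → Below θ s M K →
      ∀ T : ℝ, 0 < T → C * K ^ (4 / 5 : ℝ) ≤ Real.log T → (related T).Nonempty ∧
        c * Real.log T ^ (5 / 4 : ℝ) ≤ ∑ᶠ γ ∈ related T, 1 / ‖(1 / 2 + γ * I) * deriv riemannZeta (1 / 2 + γ * I)‖ := by
  classical
  refine ⟨ords_finite, ?_, ?_, ?_⟩
  · intro θ s K hθ hs h
    obtain ⟨h1, -, h2⟩ := general_M hθ hs h
    refine ⟨h1, fun T hT => ?_⟩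
    rw [free_eq, finsum_mem_coe_finset]
    exact h2 T hT
  · intro θ s K hθ hs h
    obtain ⟨h1, h2⟩ := general_L hθ hs h
    refine ⟨h1, fun T hT => ?_⟩
    rw [free_eq, finsum_mem_coe_finset]
    exact h2 T hT
  · obtain ⟨c, T₀, hc, hT₀, hlow⟩ := sum_low
    have hT₀0 : 0 < T₀ := by linarith
    refine ⟨c / 4, max ((4 / c) ^ (4 / 5 : ℝ)) (Real.log T₀), by positivity, by positivity, ?_⟩
    intro θ s K hθ hs hK h T hT0 hT
    obtain ⟨hRH, -, h2⟩ := general_M hθ hs h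
    have hK45 : 1 ≤ K ^ (4 / 5 : ℝ) := Real.one_le_rpow hK (by norm_num)
    have hlogT₀ : 0 < Real.log T₀ := Real.log_pos (by linarith)
    have hT₁ : T₀ ≤ T := by
      have : Real.log T₀ ≤ Real.log T := by
        refine le_trans ?_ hT
        have h5 : Real.log T₀ ≤ max ((4 / c) ^ (4 / 5 : ℝ)) (Real.log T₀) := le_max_right _ _
        nlinarith
      exact (Real.log_le_log_iff hT₀0 hT0).1 this
    have hlT : 0 < Real.log T := Real.log_pos (by linarith)
    -- the lower bound of the theorem in terms of `K`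
    have hKT : 4 / c * K ≤ Real.log T ^ (5 / 4 : ℝ) := by
      have h5 : (4 / c) ^ (4 / 5 : ℝ) * K ^ (4 / 5 : ℝ) ≤ Real.log T :=
        (mul_le_mul_of_nonneg_right (le_max_left _ _) (by positivity)).trans hT
      rw [← Real.mul_rpow (by positivity) (by linarith)] at h5
      have h6 := Real.rpow_le_rpow (by positivity) h5 (show (0:ℝ) ≤ 5 / 4 by norm_num)
      rw [← Real.rpow_mul (by positivity)] at h6
      norm_num at h6
      exact h6
    obtain ⟨Z, hZ, hZs⟩ := hlow T hT₁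
    set g : ℝ → ℝ := fun γ => 1 / ‖(1 / 2 + γ * I) * deriv riemannZeta (1 / 2 + γ * I)‖ with hg
    have hg0 : ∀ γ, 0 ≤ g γ := fun γ => by simp only [hg]; positivity
    -- pass to ordinates
    have hform : ∀ ρ ∈ Z, (1 / 2 + (ρ.im : ℂ) * I : ℂ) = ρ := by
      intro ρ hρ
      apply Complex.ext
      · simp [(hZ ρ hρ).2.1]
      · simp
    have hsum1 : ∑ ρ ∈ Z, 1 / ‖ρ * deriv riemannZeta ρ‖ = ∑ γ ∈ Z.image Complex.im, g γ := by
      rw [Finset.sum_image]
      · refine Finset.sum_congr rfl fun ρ hρ => ?_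
        simp only [hg]
        rw [hform ρ hρ]
      · intro ρ hρ ρ' hρ' him
        rw [← hform ρ hρ, ← hform ρ' hρ', him]
    have hsub : Z.image Complex.im ⊆ GT T := by
      intro γ hγ
      rw [Finset.mem_image] at hγ
      obtain ⟨ρ, hρ, rfl⟩ := hγ
      obtain ⟨a1, a2, a3, a4⟩ := hZ ρ hρ
      rw [mem_GT]
      exact ⟨a3, by linarith, ρ, a1, rfl⟩
    have hhalf : ∀ γ ∈ Z.image Complex.im, 1 / 2 ≤ 1 - γ / T := by
      intro γ hγ
      rw [Finset.mem_image] at hγ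
      obtain ⟨ρ, hρ, rfl⟩ := hγ
      have a4 := (hZ ρ hρ).2.2.2
      have : ρ.im / T ≤ 1 / 2 := by
        rw [div_le_iff₀ hT0]
        linarith
      linarith
    have hw0 : ∀ γ ∈ GT T, 0 ≤ 1 - γ / T := by
      intro γ hγ
      have := (mem_GT.1 hγ).2.1
      have : γ / T ≤ 1 := by rw [div_le_one hT0]; linarith
      linarith
    have hsum2 : c / 2 * Real.log T ^ (5 / 4 : ℝ) ≤ ∑ γ ∈ GT T, (1 - γ / T) * g γ := by
      have h5 : ∑ γ ∈ Z.image Complex.im, 1 / 2 * g γ ≤ ∑ γ ∈ Z.image Complex.im, (1 - γ / T) * g γ :=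
        Finset.sum_le_sum fun γ hγ => mul_le_mul_of_nonneg_right (hhalf γ hγ) (hg0 γ)
      have h6 : ∑ γ ∈ Z.image Complex.im, (1 - γ / T) * g γ ≤ ∑ γ ∈ GT T, (1 - γ / T) * g γ :=
        Finset.sum_le_sum_of_subset_of_nonneg hsub fun γ hγ _ => mul_nonneg (hw0 γ hγ) (hg0 γ)
      rw [← Finset.mul_sum, ← hsum1] at h5
      linarith
    have hsplit : ∑ γ ∈ GT T, (1 - γ / T) * g γ = ∑ γ ∈ FT T, (1 - γ / T) * g γ + ∑ γ ∈ RT T, (1 - γ / T) * g γ := by
      unfold FT RT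
      exact (Finset.sum_filter_add_sum_filter_not (GT T) _ _).symm
    have hfree : ∑ γ ∈ FT T, (1 - γ / T) * g γ ≤ K := by
      refine le_trans (le_of_eq ?_) (h2 T hT0)
      refine Finset.sum_congr rfl fun γ _ => ?_
      simp only [hg, mul_one_div]
    have hrel : ∑ γ ∈ RT T, (1 - γ / T) * g γ ≤ ∑ γ ∈ RT T, g γ := by
      refine Finset.sum_le_sum fun γ hγ => ?_
      have hγ' : γ ∈ GT T := by
        unfold RT at hγ
        exact (Finset.mem_filter.1 hγ).1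
      have h5 : 0 < γ := (mem_GT.1 hγ').1
      have h6 : 0 ≤ γ / T := by positivity
      have := hg0 γ
      nlinarith
    have hfin : c / 4 * Real.log T ^ (5 / 4 : ℝ) ≤ ∑ γ ∈ RT T, g γ := by
      have h5 : K ≤ c / 4 * Real.log T ^ (5 / 4 : ℝ) := by
        have : c / 4 * (4 / c * K) = K := by field_simp
        have := mul_le_mul_of_nonneg_left hKT (show 0 ≤ c / 4 by positivity)
        linarith
      linarith
    refine ⟨?_, ?_⟩
    · rw [related_eq]
      by_contra hempty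
      rw [Finset.coe_nonempty, Finset.not_nonempty_iff_eq_empty] at hempty
      rw [hempty, Finset.sum_empty] at hfin
      have : 0 < c / 4 * Real.log T ^ (5 / 4 : ℝ) := by positivity
      linarith
    · rw [related_eq, finsum_mem_coe_finset]
      exact hfin

end

end Pool.Agent.Results.MP_0ec205_nt.RelationsFromBounds
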